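import Mathlib

/-! Continued fraction Cantor sets and the dimension spectrum. -/

namespace Pool.Agent.P.MP_41c62e_nt

/-- The Gauss map `x ↦ {1/x}`. -/
noncomputable def gauss (x : ℝ) : ℝ := Int.fract x⁻¹

/-- The digit `a_{n+1}` of the regular continued fraction `x = [a_1, a_2, ...]`. -/
noncomputable def digit (x : ℝ) (n : ℕ) : ℕ := ⌊(gauss^[n] x)⁻¹⌋₊

/-- The irrationals in `(0,1)` all of whose continued fraction digits lie in `A`. -/
def J (A : Set ℕ) : Set ℝ := {x | x ∈ Set.Ioo (0 : ℝ) 1 ∧ Irrational x ∧ ∀ n, digit x n ∈ A}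

/-- The dimension spectrum of `A`. -/
def DS (A : Set ℕ) : Set ℝ := {s | ∃ B ⊆ A, s = (dimH (J B)).toReal}

/-- The set `{1} ∪ {q, q^2, q^3, ...}`. -/
def Pstar (q : ℕ) : Set ℕ := {m | ∃ n, 1 ≤ n ∧ m = q ^ n} ∪ {1}

end Pool.Agent.P.MP_41c62e_nt
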