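import Mathlib
import Pool.Agent.P.MP_41c62e_nt.Defs

/-! Möbius maps of words (read from the last digit to the first) and their derivative weights. -/

namespace Pool.Agent.P.MP_41c62e_nt

open Set
open scoped ENNReal

/-- The map of the word; the head of the list is applied first. -/
noncomputable def phi : List ℕ → ℝ → ℝ
  | [], x => x
  | a :: l, x => phi l (1 / (a + x))

/-- The square root of the absolute value of the derivative of `phi`. -/
noncomputable def D : List ℕ → ℝ → ℝ
  | [], _ => 1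
  | a :: l, x => 1 / (a + x) * D l (1 / (a + x))

/-- All letters are positive. -/
def Pos (l : List ℕ) : Prop := ∀ a ∈ l, 1 ≤ a

theorem Pos.head {a : ℕ} {l : List ℕ} (h : Pos (a :: l)) : (1 : ℝ) ≤ a := by
  exact_mod_cast h a List.mem_cons_self

theorem Pos.tail {a : ℕ} {l : List ℕ} (h : Pos (a :: l)) : Pos l :=
  fun b hb => h b (List.mem_cons_of_mem _ hb)

theorem step_pos {a x : ℝ} (ha : 1 ≤ a) (hx : 0 ≤ x) : 0 < 1 / (a + x) := by
  have : 0 < a + x := by linarith
  positivity

theorem step_le_one {a x : ℝ} (ha : 1 ≤ a) (hx : 0 ≤ x) : 1 / (a + x) ≤ 1 := by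
  rw [div_le_one (by linarith)]; linarith

theorem D_pos {l : List ℕ} (hl : Pos l) {x : ℝ} (hx : 0 ≤ x) : 0 < D l x := by
  induction l generalizing x with
  | nil => simp [D]
  | cons a l ih =>
    have h := step_pos hl.head hx
    exact mul_pos h (ih hl.tail h.le)

theorem phi_nonneg {l : List ℕ} (hl : Pos l) {x : ℝ} (hx : 0 ≤ x) : 0 ≤ phi l x := by
  induction l generalizing x with
  | nil => exact hx
  | cons a l ih => exact ih hl.tail (step_pos hl.head hx).le

theorem abs_phi_sub {l : List ℕ} (hl : Pos l) {x y : ℝ} (hx : 0 ≤ x) (hy : 0 ≤ y) :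
    |phi l x - phi l y| = |x - y| * (D l x * D l y) := by
  induction l generalizing x y with
  | nil => simp [phi, D]
  | cons a l ih =>
    have ha := hl.head
    have h1 := step_pos ha hx
    have h2 := step_pos ha hy
    have h3 : (0 : ℝ) < a + x := by linarith
    have h4 : (0 : ℝ) < a + y := by linarith
    simp only [phi, D]
    rw [ih hl.tail h1.le h2.le]
    have : 1 / ((a : ℝ) + x) - 1 / (a + y) = (y - x) * (1 / (a + x) * (1 / (a + y))) := by
      field_simp; ring
    rw [this, abs_mul, abs_sub_comm y x, abs_of_pos (mul_pos h1 h2)]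
    ring

theorem D_mono {l : List ℕ} (hl : Pos l) {x y : ℝ} (hx : 0 ≤ x) (hxy : x ≤ y) :
    D l y ≤ D l x ∧ (1 + x) * D l x ≤ (1 + y) * D l y := by
  induction l generalizing x y with
  | nil => simp [D, hxy]
  | cons a l ih =>
    have ha := hl.head
    have hy : 0 ≤ y := hx.trans hxy
    have h1 := step_pos ha hx
    have h2 := step_pos ha hy
    have h3 : (0 : ℝ) < a + x := by linarith
    have h4 : (0 : ℝ) < a + y := by linarith
    have h5 : 1 / ((a : ℝ) + y) ≤ 1 / (a + x) := one_div_le_one_div_of_le h3 (by linarith)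
    obtain ⟨i1, i2⟩ := ih hl.tail h2.le h5
    have p1 := D_pos hl.tail h1.le
    have p2 := D_pos hl.tail h2.le
    simp only [D]
    set u := 1 / ((a : ℝ) + x) with hu
    set v := 1 / ((a : ℝ) + y) with hv
    constructor
    · have e1 : v * D l v = v / (1 + v) * ((1 + v) * D l v) := by field_simp
      have e2 : u * D l u = u / (1 + u) * ((1 + u) * D l u) := by field_simp
      rw [e1, e2]
      have : v / (1 + v) ≤ u / (1 + u) := by
        rw [div_le_div_iff₀ (by linarith) (by linarith)]; nlinarith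
      exact mul_le_mul this i2 (by positivity) (by positivity)
    · have : (1 + x) * u ≤ (1 + y) * v := by
        rw [hu, hv, mul_one_div, mul_one_div, div_le_div_iff₀ h3 h4]; nlinarith
      calc (1 + x) * (u * D l u) = ((1 + x) * u) * D l u := by ring
        _ ≤ ((1 + y) * v) * D l v := mul_le_mul this i1 p1.le (by positivity)
        _ = _ := by ring

theorem D_le_D_zero {l : List ℕ} (hl : Pos l) {x : ℝ} (hx : 0 ≤ x) : D l x ≤ D l 0 :=
  (D_mono hl le_rfl hx).1

theorem D_zero_le {l : List ℕ} (hl : Pos l) {x : ℝ} (hx : 0 ≤ x) (hx1 : x ≤ 1) :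
    D l 0 ≤ 2 * D l x := by
  have h := (D_mono hl le_rfl hx).2
  have := D_pos hl hx
  nlinarith

theorem phi_append (l m : List ℕ) (x : ℝ) : phi (l ++ m) x = phi m (phi l x) := by
  induction l generalizing x with
  | nil => rfl
  | cons a l ih => exact ih _

theorem D_append (l m : List ℕ) (x : ℝ) : D (l ++ m) x = D l x * D m (phi l x) := by
  induction l generalizing x with
  | nil => simp [D, phi]
  | cons a l ih => simp only [List.cons_append, D, phi, ih]; ring

theorem D_mul_le_one {l : List ℕ} (hl : Pos l) (hne : l ≠ []) {x : ℝ} (hx : 0 ≤ x) :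
    (l.length + x) * D l x ≤ 1 := by
  induction l generalizing x with
  | nil => exact absurd rfl hne
  | cons a l ih =>
    have ha := hl.head
    have h1 := step_pos ha hx
    have h3 : (0 : ℝ) < a + x := by linarith
    by_cases hl' : l = []
    · subst hl'
      simp only [D, List.length_singleton, Nat.cast_one, mul_one]
      rw [mul_one_div, div_le_one h3]; linarith
    · have h4 := ih hl.tail hl' h1.le
      have p1 := D_pos hl.tail h1.le
      have hk : (1 : ℝ) ≤ l.length := by exact_mod_cast List.length_pos_iff.2 hl'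
      simp only [D, List.length_cons, Nat.cast_add, Nat.cast_one]
      have h5 : ((l.length : ℝ) + 1 + x) * (1 / (a + x)) ≤ l.length + 1 / (a + x) := by
        rw [mul_one_div, div_le_iff₀ h3, add_mul, one_div_mul_cancel h3.ne']
        nlinarith
      calc _ = (((l.length : ℝ) + 1 + x) * (1 / (a + x))) * D l (1 / (a + x)) := by ring
        _ ≤ (l.length + 1 / (a + x)) * D l (1 / (a + x)) := by gcongr
        _ ≤ 1 := h4

theorem D_zero_le_inv {l : List ℕ} (hl : Pos l) (hne : l ≠ []) : D l 0 ≤ 1 / l.length := by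
  have hk : (0 : ℝ) < l.length := by exact_mod_cast List.length_pos_iff.2 hne
  have := D_mul_le_one hl hne le_rfl
  rw [le_div_iff₀ hk]; linarith

theorem D_le_one {l : List ℕ} (hl : Pos l) {x : ℝ} (hx : 0 ≤ x) : D l x ≤ 1 := by
  induction l generalizing x with
  | nil => simp [D]
  | cons a l ih =>
    have h1 := step_pos hl.head hx
    exact mul_le_one₀ (step_le_one hl.head hx) (D_pos hl.tail h1.le).le (ih hl.tail h1.le)

theorem le_D {l : List ℕ} (hl : Pos l) {b : ℕ} (hb : ∀ a ∈ l, a ≤ b) {x : ℝ} (hx : 0 ≤ x)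
    (hx1 : x ≤ 1) : (1 / ((b : ℝ) + 1)) ^ l.length ≤ D l x := by
  induction l generalizing x with
  | nil => simp [D]
  | cons a l ih =>
    have ha := hl.head
    have h1 := step_pos ha hx
    have hab : (a : ℝ) ≤ b := by exact_mod_cast hb a List.mem_cons_self
    have h2 : 1 / ((b : ℝ) + 1) ≤ 1 / (a + x) :=
      one_div_le_one_div_of_le (by linarith) (by linarith)
    rw [List.length_cons, pow_succ', D]
    exact mul_le_mul h2 (ih hl.tail (fun c hc => hb c (List.mem_cons_of_mem _ hc)) h1.le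
      (step_le_one ha hx)) (by positivity) h1.le

/-- Comparison of a large first letter with a smaller one. -/
theorem D_cons_le_of_ge {l : List ℕ} (hl : Pos l) {a b : ℕ} (hb : 1 ≤ b) (hab : b ≤ a) {x : ℝ}
    (hx : 0 ≤ x) (hx1 : x ≤ 1) :
    D (a :: l) x ≤ ((b : ℝ) / a * (1 + 1 / b) ^ 2) * D (b :: l) x := by
  have hb' : (1 : ℝ) ≤ b := by exact_mod_cast hb
  have hab' : (b : ℝ) ≤ a := by exact_mod_cast hab
  have ha' : (1 : ℝ) ≤ a := hb'.trans hab'
  have h1 := step_pos ha' hx
  have h2 := step_pos hb' hx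
  have h5 : 1 / ((a : ℝ) + x) ≤ 1 / (b + x) :=
    one_div_le_one_div_of_le (by linarith) (by linarith)
  have i2 := (D_mono hl h1.le h5).2
  have p1 := D_pos hl h1.le
  have p2 := D_pos hl h2.le
  simp only [D]
  have h6 : 1 / ((b : ℝ) + x) ≤ 1 / b := one_div_le_one_div_of_le (by linarith) (by linarith)
  have h7 : D l (1 / (a + x)) ≤ (1 + 1 / b) * D l (1 / (b + x)) := by nlinarith
  have h8 : 1 / ((a : ℝ) + x) ≤ (b / a * (1 + 1 / b)) * (1 / (b + x)) := by
    have e : (b : ℝ) / a * (1 + 1 / b) * (1 / (b + x)) = (b + 1) / (a * (b + x)) := by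
      field_simp
    rw [e, div_le_div_iff₀ (by linarith) (by positivity)]
    nlinarith
  calc _ ≤ ((b / a * (1 + 1 / b)) * (1 / (b + x))) * ((1 + 1 / b) * D l (1 / (b + x))) :=
        mul_le_mul h8 h7 p1.le (by positivity)
    _ = _ := by ring

/-- Comparison of a small first letter with a larger one. -/
theorem D_cons_le_of_le {l : List ℕ} (hl : Pos l) {a b : ℕ} (ha : 1 ≤ a) (hab : a ≤ b) {x : ℝ}
    (hx : 0 ≤ x) : D (a :: l) x ≤ b * D (b :: l) x := by
  have ha' : (1 : ℝ) ≤ a := by exact_mod_cast ha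
  have hab' : (a : ℝ) ≤ b := by exact_mod_cast hab
  have hb' : (1 : ℝ) ≤ b := ha'.trans hab'
  have h1 := step_pos ha' hx
  have h2 := step_pos hb' hx
  have h5 : 1 / ((b : ℝ) + x) ≤ 1 / (a + x) :=
    one_div_le_one_div_of_le (by linarith) (by linarith)
  have i1 := (D_mono hl h2.le h5).1
  have p1 := D_pos hl h1.le
  simp only [D]
  have h8 : 1 / ((a : ℝ) + x) ≤ b * (1 / (b + x)) := by
    rw [mul_one_div, div_le_div_iff₀ (by linarith) (by linarith)]
    nlinarith
  calc _ ≤ (b * (1 / (b + x))) * D l (1 / (b + x)) := mul_le_mul h8 i1 p1.le (by positivity)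
    _ = _ := by ring

/-- Words of length `k` over `B`. -/
def words (B : Set ℕ) (k : ℕ) : Set (List ℕ) := {l | l.length = k ∧ ∀ a ∈ l, a ∈ B}

theorem pos_of_mem_words {B : Set ℕ} (hB : ∀ a ∈ B, 1 ≤ a) {k : ℕ} {l : List ℕ}
    (hl : l ∈ words B k) : Pos l := fun a ha => hB a (hl.2 a ha)

/-- The partition function. -/
noncomputable def Z (B : Set ℕ) (s : ℝ) (k : ℕ) (x : ℝ) : ℝ≥0∞ :=
  ∑' l : words B k, ENNReal.ofReal (D l x ^ (2 * s))

/-- Splitting off the head of a word. -/
def consEquiv (B : Set ℕ) (k : ℕ) : B × words B k ≃ words B (k + 1) where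
  toFun p := ⟨p.1.1 :: p.2.1, by simp [p.2.2.1], by
    intro c hc
    rcases List.mem_cons.1 hc with rfl | hc
    · exact p.1.2
    · exact p.2.2.2 c hc⟩
  invFun l := (⟨l.1.head (by intro h; have := l.2.1; simp [h] at this),
      l.2.2 _ (List.head_mem _)⟩,
    ⟨l.1.tail, by simp [l.2.1], fun c hc => l.2.2 c (List.mem_of_mem_tail hc)⟩)
  left_inv p := rfl
  right_inv l := Subtype.ext (List.cons_head_tail _)

theorem Z_succ (B : Set ℕ) (s : ℝ) (k : ℕ) (x : ℝ) :
    Z B s (k + 1) x = ∑' a : B, ∑' l : words B k, ENNReal.ofReal (D (a.1 :: l.1) x ^ (2 * s)) := by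
  rw [Z, ← (consEquiv B k).tsum_eq, ENNReal.tsum_prod']
  rfl

theorem Z_zero (B : Set ℕ) (s : ℝ) (x : ℝ) : Z B s 0 x = 1 := by
  have : words B 0 = {[]} := by
    ext l; simp only [words, mem_ofPred_eq, mem_singleton_iff, List.length_eq_zero_iff]
    exact ⟨fun h => h.1, fun h => ⟨h, by simp [h]⟩⟩
  rw [Z, this, tsum_singleton [] (fun l => ENNReal.ofReal (D l x ^ (2 * s)))]
  simp [D]

/-- The contribution of the head `a` in front of words over `B`. -/
noncomputable def term (B : Set ℕ) (s : ℝ) (k : ℕ) (x : ℝ) (a : ℕ) : ℝ≥0∞ :=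
  ∑' l : words B k, ENNReal.ofReal (D (a :: l.1) x ^ (2 * s))

theorem Z_succ_eq (B : Set ℕ) (s : ℝ) (k : ℕ) (x : ℝ) :
    Z B s (k + 1) x = ∑' a : B, term B s k x a := Z_succ B s k x

theorem term_eq {B : Set ℕ} (hB : ∀ a ∈ B, 1 ≤ a) (s : ℝ) (k : ℕ) {x : ℝ} (hx : 0 ≤ x) {a : ℕ}
    (ha : 1 ≤ a) :
    term B s k x a = ENNReal.ofReal ((1 / (a + x)) ^ (2 * s)) * Z B s k (1 / (a + x)) := by
  have ha' : (1 : ℝ) ≤ a := by exact_mod_cast ha
  have h1 := step_pos ha' hx
  rw [term, Z, ← ENNReal.tsum_mul_left]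
  refine tsum_congr fun l => ?_
  rw [D, Real.mul_rpow h1.le (D_pos (pos_of_mem_words hB l.2) h1.le).le,
    ENNReal.ofReal_mul (by positivity)]

end Pool.Agent.P.MP_41c62e_nt
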