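import Mathlib
import Pool.Agent.P.MP_41c62e_nt.Words

/-! Upper bound for the Hausdorff dimension from a bounded partition function. -/

namespace Pool.Agent.P.MP_41c62e_nt

open Set Filter Topology MeasureTheory
open scoped ENNReal NNReal

/-- The first `k` letters of `ω`, last letter first. -/
def pre (ω : ℕ → ℕ) : ℕ → List ℕ
  | 0 => []
  | k + 1 => ω k :: pre ω k

theorem length_pre (ω : ℕ → ℕ) (k : ℕ) : (pre ω k).length = k := by
  induction k with
  | zero => rfl
  | succ k ih => simp [pre, ih]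

theorem pre_mem_words {B : Set ℕ} {ω : ℕ → ℕ} (h : ∀ n, ω n ∈ B) (k : ℕ) :
    pre ω k ∈ words B k := by
  refine ⟨length_pre ω k, ?_⟩
  induction k with
  | zero => simp [pre]
  | succ k ih =>
    intro a ha
    rcases List.mem_cons.1 ha with rfl | ha
    · exact h k
    · exact ih a ha

theorem pre_congr {ω ω' : ℕ → ℕ} {k : ℕ} (h : ∀ j < k, ω j = ω' j) : pre ω k = pre ω' k := by
  induction k with
  | zero => rfl
  | succ k ih =>
    rw [pre, pre, h k (Nat.lt_succ_self k), ih fun j hj => h j (Nat.lt_succ_of_lt hj)]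

theorem orbit_eq_phi {ω : ℕ → ℕ} {x : ℕ → ℝ} (h : ∀ j, x j = 1 / (ω j + x (j + 1))) (k : ℕ) :
    x 0 = phi (pre ω k) (x k) := by
  induction k with
  | zero => rfl
  | succ k ih => rw [pre, phi, ← h k, ih]

theorem gauss_mem {x : ℝ} (hx : Irrational x) :
    gauss x ∈ Ioo (0 : ℝ) 1 ∧ Irrational (gauss x) := by
  have h1 : Irrational (gauss x) := hx.inv.sub_intCast _
  refine ⟨⟨lt_of_le_of_ne (Int.fract_nonneg _) h1.ne_zero.symm, Int.fract_lt_one _⟩, h1⟩

theorem iterate_mem {x : ℝ} (h0 : x ∈ Ioo (0 : ℝ) 1) (hx : Irrational x) (n : ℕ) :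
    gauss^[n] x ∈ Ioo (0 : ℝ) 1 ∧ Irrational (gauss^[n] x) := by
  induction n with
  | zero => exact ⟨h0, hx⟩
  | succ n ih => rw [Function.iterate_succ_apply']; exact gauss_mem ih.2

theorem iterate_eq {x : ℝ} (h0 : x ∈ Ioo (0 : ℝ) 1) (hx : Irrational x) (n : ℕ) :
    gauss^[n] x = 1 / (digit x n + gauss^[n + 1] x) := by
  have h := (iterate_mem h0 hx n).1
  rw [Function.iterate_succ_apply', digit, gauss, natCast_floor_eq_intCast_floor
    (inv_pos.2 h.1).le, Int.floor_add_fract, one_div, inv_inv]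

theorem J_subset (B : Set ℕ) (k : ℕ) :
    J B ⊆ ⋃ l : words B k, phi l.1 '' Icc 0 1 := by
  rintro x ⟨h0, hx, hd⟩
  refine mem_iUnion.2 ⟨⟨pre (digit x) k, pre_mem_words hd k⟩, gauss^[k] x,
    Ioo_subset_Icc_self (iterate_mem h0 hx k).1, ?_⟩
  exact (orbit_eq_phi (x := fun n => gauss^[n] x) (iterate_eq h0 hx) k).symm

theorem ediam_cyl_le {l : List ℕ} (hl : Pos l) :
    Metric.ediam (phi l '' Icc 0 1) ≤ ENNReal.ofReal (D l 0 ^ 2) := by
  refine Metric.ediam_le_of_forall_dist_le ?_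
  rintro _ ⟨x, hx, rfl⟩ _ ⟨y, hy, rfl⟩
  rw [Real.dist_eq, abs_phi_sub hl hx.1 hy.1]
  have h1 : |x - y| ≤ 1 := by
    rw [abs_le]; constructor <;> linarith [hx.1, hx.2, hy.1, hy.2]
  have h2 := D_le_D_zero hl hx.1
  have h3 := D_le_D_zero hl hy.1
  have h4 := D_pos hl hx.1
  have h5 := D_pos hl hy.1
  have h6 := D_pos hl le_rfl
  calc _ ≤ 1 * (D l 0 * D l 0) := by gcongr
    _ = _ := by ring

theorem dimH_le_of_Z {B : Set ℕ} (hB : ∀ a ∈ B, 1 ≤ a) (s : ℝ≥0) {C : ℝ≥0∞} (hC : C ≠ ∞)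
    (hZ : ∀ k, Z B s k 0 ≤ C) : dimH (J B) ≤ s := by
  refine dimH_le_of_hausdorffMeasure_ne_top (ne_top_of_le_ne_top hC ?_)
  have hr : Tendsto (fun k : ℕ => ENNReal.ofReal (1 / (k : ℝ))) atTop (𝓝 0) := by
    have := ENNReal.tendsto_ofReal (tendsto_one_div_atTop_nhds_zero_nat (𝕜 := ℝ))
    simpa using this
  refine (Measure.hausdorffMeasure_le_liminf_tsum (ι := fun k => words B k) (s : ℝ) (J B)
    (l := atTop) (fun k : ℕ => ENNReal.ofReal (1 / (k : ℝ))) hr
    (fun k l => phi l.1 '' Icc 0 1) ?_ (Eventually.of_forall fun k => J_subset B k)).trans ?_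
  · filter_upwards [eventually_ge_atTop 1] with k hk l
    have hl := pos_of_mem_words hB l.2
    have hne : l.1 ≠ [] := by
      intro h
      have := l.2.1
      rw [h] at this
      simp at this
      omega
    refine (ediam_cyl_le hl).trans (ENNReal.ofReal_le_ofReal ?_)
    have h1 := D_zero_le_inv hl hne
    rw [l.2.1] at h1
    have h2 := D_le_one hl le_rfl
    have h3 := D_pos hl le_rfl
    nlinarith
  · refine liminf_le_of_frequently_le' (Frequently.of_forall fun k => le_trans ?_ (hZ k))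
    refine ENNReal.tsum_le_tsum fun l => ?_
    have hl := pos_of_mem_words hB l.2
    have h3 := D_pos hl le_rfl
    calc _ ≤ ENNReal.ofReal (D l.1 0 ^ 2) ^ (s : ℝ) :=
          ENNReal.rpow_le_rpow (ediam_cyl_le hl) s.coe_nonneg
      _ = _ := by
          rw [ENNReal.ofReal_rpow_of_nonneg (by positivity) s.coe_nonneg, Real.rpow_mul h3.le,
            Real.rpow_two]

end Pool.Agent.P.MP_41c62e_nt
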