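import Mathlib
import Pool.Agent.P.MP_41c62e_nt.Upper

/-! For a finite alphabet, above the Hausdorff dimension the partition function is bounded. -/

namespace Pool.Agent.P.MP_41c62e_nt

open Set Filter Topology MeasureTheory
open scoped ENNReal NNReal

/-- `x` is a sequence in `[0,1]` with `x j = 1 / (ω j + x (j+1))`. -/
def IsOrbit (ω : ℕ → ℕ) (x : ℕ → ℝ) : Prop :=
  (∀ j, x j ∈ Icc (0 : ℝ) 1) ∧ ∀ j, x j = 1 / (ω j + x (j + 1))

theorem exists_orbit {ω : ℕ → ℕ} (hω : ∀ j, 1 ≤ ω j) : ∃ x, IsOrbit ω x := by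
  have hω' : ∀ j, (1 : ℝ) ≤ ω j := fun j => by exact_mod_cast hω j
  let t : ℕ → Set (ℕ → ℝ) := fun k =>
    {x | (∀ j, x j ∈ Icc (0 : ℝ) 1) ∧ ∀ j < k, x j * (ω j + x (j + 1)) = 1}
  have hne : ∀ (k : ℕ) (ω : ℕ → ℕ), (∀ j, (1 : ℝ) ≤ ω j) → ∃ x : ℕ → ℝ,
      (∀ j, x j ∈ Icc (0 : ℝ) 1) ∧ ∀ j < k, x j * (ω j + x (j + 1)) = 1 := by
    intro k
    induction k with
    | zero => exact fun ω _ => ⟨fun _ => 0, fun _ => by simp, fun j hj => absurd hj (by omega)⟩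
    | succ k ih =>
      intro ω hω
      obtain ⟨y, hy1, hy2⟩ := ih (fun j => ω (j + 1)) fun j => hω (j + 1)
      refine ⟨fun j => Nat.casesOn j (1 / (ω 0 + y 0)) y, fun j => ?_, fun j hj => ?_⟩
      · cases j with
        | zero => exact ⟨(step_pos (hω 0) (hy1 0).1).le, step_le_one (hω 0) (hy1 0).1⟩
        | succ j => exact hy1 j
      · cases j with
        | zero =>
          have : (0 : ℝ) < ω 0 + y 0 := by linarith [hω 0, (hy1 0).1]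
          exact one_div_mul_cancel this.ne'
        | succ j => exact hy2 j (by omega)
  have hcl0 : IsClosed {x : ℕ → ℝ | ∀ j, x j ∈ Icc (0 : ℝ) 1} := by
    rw [Set.ofPred_forall]
    exact isClosed_iInter fun j => isClosed_Icc.preimage (continuous_apply j)
  have hcl : ∀ k, IsClosed (t k) := fun k => by
    refine hcl0.inter ?_
    change IsClosed {x : ℕ → ℝ | ∀ j < k, x j * (ω j + x (j + 1)) = 1}
    simp only [Set.ofPred_forall]
    exact isClosed_iInter fun j => isClosed_iInter fun _ =>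
      isClosed_eq (by fun_prop) continuous_const
  have hc : IsCompact (t 0) :=
    (isCompact_pi_infinite fun _ => isCompact_Icc).of_isClosed_subset (hcl 0) fun x hx => hx.1
  obtain ⟨x, hx⟩ := IsCompact.nonempty_iInter_of_sequence_nonempty_isCompact_isClosed t
    (fun i x hx => ⟨hx.1, fun j hj => hx.2 j (by omega)⟩) (fun i => hne i ω hω') hc hcl
  rw [mem_iInter] at hx
  refine ⟨x, (hx 0).1, fun j => ?_⟩
  have h1 := (hx (j + 1)).2 j (by omega)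
  exact eq_one_div_of_mul_eq_one_left h1

theorem IsOrbit.pos {ω : ℕ → ℕ} (hω : ∀ j, 1 ≤ ω j) {x : ℕ → ℝ} (h : IsOrbit ω x) (j : ℕ) :
    0 < x j := by
  rw [h.2 j]
  exact step_pos (by exact_mod_cast hω j) (h.1 _).1

theorem IsOrbit.lt_one {ω : ℕ → ℕ} (hω : ∀ j, 1 ≤ ω j) {x : ℕ → ℝ} (h : IsOrbit ω x) (j : ℕ) :
    x j < 1 := by
  have h1 : (1 : ℝ) ≤ ω j := by exact_mod_cast hω j
  have h2 := h.pos hω (j + 1)
  rw [h.2 j, div_lt_one (by linarith)]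
  linarith

theorem IsOrbit.inv_eq {ω : ℕ → ℕ} {x : ℕ → ℝ} (h : IsOrbit ω x) (j : ℕ) :
    (x j)⁻¹ = ω j + x (j + 1) := by
  rw [h.2 j, one_div, inv_inv]

theorem IsOrbit.irrational {ω : ℕ → ℕ} (hω : ∀ j, 1 ≤ ω j) {x : ℕ → ℝ} (h : IsOrbit ω x)
    (j : ℕ) : Irrational (x j) := by
  have key : ∀ d : ℕ, ∀ (j : ℕ) (p : ℤ), 0 < d → x j ≠ p / d := by
    intro d
    induction d using Nat.strong_induction_on with
    | _ d ih =>
      intro j p hd hx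
      have hd' : (0 : ℝ) < d := by exact_mod_cast hd
      have h0 := h.pos hω j
      have h1 := h.lt_one hω j
      rw [hx] at h0 h1
      have hp0 : (0 : ℝ) < p := by
        by_contra hneg
        exact absurd h0 (not_lt.2 (div_nonpos_of_nonpos_of_nonneg (not_lt.1 hneg) hd'.le))
      have hpd : (p : ℝ) < d := (div_lt_one hd').1 h1
      have hp0' : 0 < p := by exact_mod_cast hp0
      have hpd' : p < d := by exact_mod_cast hpd
      lift p to ℕ using hp0'.le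
      refine ih p (by exact_mod_cast hpd') (j + 1) (d - ω j * p) (by exact_mod_cast hp0') ?_
      have h2 := h.inv_eq j
      rw [hx] at h2
      have h3 : x (j + 1) = ((p : ℤ) / (d : ℝ))⁻¹ - ω j := by linarith
      rw [h3]
      push_cast at hp0 ⊢
      field_simp
  rintro ⟨r, hr⟩
  refine key r.den j r.num r.den_pos ?_
  rw [← hr, Rat.cast_def]

theorem IsOrbit.iterate {ω : ℕ → ℕ} (hω : ∀ j, 1 ≤ ω j) {x : ℕ → ℝ} (h : IsOrbit ω x) (n : ℕ) :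
    gauss^[n] (x 0) = x n := by
  induction n with
  | zero => rfl
  | succ n ih =>
    rw [Function.iterate_succ_apply', ih, gauss, h.inv_eq, Int.fract_natCast_add,
      Int.fract_eq_self.2 ⟨(h.pos hω _).le, h.lt_one hω _⟩]

theorem IsOrbit.mem_J {B : Set ℕ} (hB : ∀ a ∈ B, 1 ≤ a) {ω : ℕ → ℕ} (hω : ∀ j, ω j ∈ B)
    {x : ℕ → ℝ} (h : IsOrbit ω x) : x 0 ∈ J B := by
  have hω1 : ∀ j, 1 ≤ ω j := fun j => hB _ (hω j)
  refine ⟨⟨h.pos hω1 0, h.lt_one hω1 0⟩, h.irrational hω1 0, fun n => ?_⟩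
  have : digit (x 0) n = ω n := by
    rw [digit, h.iterate hω1, h.inv_eq, Nat.floor_eq_iff (by linarith [h.pos hω1 (n + 1)])]
    constructor <;> linarith [h.pos hω1 (n + 1), h.lt_one hω1 (n + 1)]
  rw [this]
  exact hω n

theorem IsOrbit.lower {b : ℕ} {ω : ℕ → ℕ} (hω : ∀ j, 1 ≤ ω j) (hb : ∀ j, ω j ≤ b)
    {x : ℕ → ℝ} (h : IsOrbit ω x) (j : ℕ) : 1 / ((b : ℝ) + 1) ≤ x j := by
  have h1 : (1 : ℝ) ≤ ω j := by exact_mod_cast hω j
  have h2 : (ω j : ℝ) ≤ b := by exact_mod_cast hb j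
  rw [h.2 j]
  exact one_div_le_one_div_of_le (by linarith [(h.1 (j + 1)).1]) (by linarith [(h.1 (j + 1)).2])

theorem sep_of_lt {b : ℕ} {ω ω' : ℕ → ℕ} (hω : ∀ j, 1 ≤ ω j) (hb : ∀ j, ω j ≤ b)
    (hω' : ∀ j, 1 ≤ ω' j) (hb' : ∀ j, ω' j ≤ b) {x x' : ℕ → ℝ} (h : IsOrbit ω x)
    (h' : IsOrbit ω' x') {j : ℕ} (hj : ω j < ω' j) :
    (1 / ((b : ℝ) + 1)) ^ 3 ≤ x j - x' j := by
  have h1 : (ω j : ℝ) + 1 ≤ ω' j := by exact_mod_cast hj
  have l1 := h.lower hω hb j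
  have l2 := h'.lower hω' hb' j
  have l3 := h'.lower hω' hb' (j + 1)
  have u1 := (h.1 (j + 1)).2
  have p1 := h.pos hω j
  have p2 := h'.pos hω' j
  have e : x j - x' j = ((x' j)⁻¹ - (x j)⁻¹) * (x j * x' j) := by field_simp
  rw [e, h.inv_eq, h'.inv_eq]
  have c0 : 0 < 1 / ((b : ℝ) + 1) := by positivity
  calc (1 / ((b : ℝ) + 1)) ^ 3 = (1 / ((b : ℝ) + 1)) * ((1 / ((b : ℝ) + 1)) * (1 / (b + 1))) := by
        ring
    _ ≤ _ := mul_le_mul (by linarith) (mul_le_mul l1 l2 c0.le p1.le) (by positivity)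
        (by linarith)

theorem sep_of_ne {b : ℕ} {ω ω' : ℕ → ℕ} (hω : ∀ j, 1 ≤ ω j) (hb : ∀ j, ω j ≤ b)
    (hω' : ∀ j, 1 ≤ ω' j) (hb' : ∀ j, ω' j ≤ b) {x x' : ℕ → ℝ} (h : IsOrbit ω x)
    (h' : IsOrbit ω' x') {j : ℕ} (hj : ω j ≠ ω' j) (hlt : ∀ i < j, ω i = ω' i) :
    D (pre ω j) 0 ^ 2 ≤ 4 * ((b : ℝ) + 1) ^ 3 * |x 0 - x' 0| := by
  have hl : Pos (pre ω j) :=
    pos_of_mem_words (B := {a | 1 ≤ a}) (fun _ ha => ha) (pre_mem_words hω j)
  have h1 : (1 / ((b : ℝ) + 1)) ^ 3 ≤ |x j - x' j| := by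
    rcases lt_or_gt_of_ne hj with hj | hj
    · exact (sep_of_lt hω hb hω' hb' h h' hj).trans (le_abs_self _)
    · rw [abs_sub_comm]
      exact (sep_of_lt hω' hb' hω hb h' h hj).trans (le_abs_self _)
  rw [orbit_eq_phi h.2 j, orbit_eq_phi h'.2 j, ← pre_congr hlt,
    abs_phi_sub hl (h.1 j).1 (h'.1 j).1]
  have h2 := D_zero_le hl (h.1 j).1 (h.1 j).2
  have h3 := D_zero_le hl (h'.1 j).1 (h'.1 j).2
  have h4 := D_pos hl le_rfl
  have h5 : D (pre ω j) 0 ^ 2 ≤ 4 * (D (pre ω j) (x j) * D (pre ω j) (x' j)) := by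
    calc _ = D (pre ω j) 0 * D (pre ω j) 0 := sq _
      _ ≤ (2 * D (pre ω j) (x j)) * (2 * D (pre ω j) (x' j)) :=
          mul_le_mul h2 h3 h4.le (by linarith)
      _ = _ := by ring
  have h6 : 1 ≤ ((b : ℝ) + 1) ^ 3 * |x j - x' j| := by
    calc (1 : ℝ) = ((b : ℝ) + 1) ^ 3 * (1 / ((b : ℝ) + 1)) ^ 3 := by field_simp
      _ ≤ _ := by gcongr
  have h7 : 0 ≤ D (pre ω j) (x j) * D (pre ω j) (x' j) :=
    (mul_pos (D_pos hl (h.1 j).1) (D_pos hl (h'.1 j).1)).le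
  calc _ ≤ 4 * (1 * (D (pre ω j) (x j) * D (pre ω j) (x' j))) := by rw [one_mul]; exact h5
    _ ≤ 4 * ((((b : ℝ) + 1) ^ 3 * |x j - x' j|) * (D (pre ω j) (x j) * D (pre ω j) (x' j))) := by
        gcongr
    _ = _ := by ring

/-- The weight of a word. -/
noncomputable def wt (s : ℝ) (l : List ℕ) : ℝ≥0∞ := ENNReal.ofReal (D l 0 ^ (2 * s))

theorem exists_long_prefix {ω : ℕ → ℕ} (hω : ∀ j, 1 ≤ ω j) {s : ℝ} (hs : 0 < s) {η : ℝ≥0∞}
    (hη : 0 < η) : ∃ k, wt s (pre ω k) ≤ η := by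
  have h1 : Tendsto (fun k : ℕ => (1 / (k : ℝ)) ^ (2 * s)) atTop (𝓝 0) := by
    have := (tendsto_one_div_atTop_nhds_zero_nat (𝕜 := ℝ)).rpow_const (p := 2 * s)
      (Or.inr (by positivity))
    rwa [Real.zero_rpow (by positivity)] at this
  have h2 := ENNReal.tendsto_ofReal h1
  rw [ENNReal.ofReal_zero] at h2
  obtain ⟨k, hk1, hk2⟩ := ((h2.eventually (ge_mem_nhds hη)).and (eventually_ge_atTop 1)).exists
  refine ⟨k, le_trans (ENNReal.ofReal_le_ofReal ?_) hk1⟩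
  have hl : Pos (pre ω k) :=
    pos_of_mem_words (B := {a | 1 ≤ a}) (fun _ ha => ha) (pre_mem_words hω k)
  have hne : pre ω k ≠ [] := by
    intro h
    have := length_pre ω k
    rw [h] at this
    simp at this
    omega
  have h3 := D_zero_le_inv hl hne
  rw [length_pre] at h3
  exact Real.rpow_le_rpow (D_pos hl le_rfl).le h3 (by positivity)

/-- Every set meets the Cantor set inside one cylinder of comparable size. -/
theorem exists_cyl {H : Set ℕ} {b : ℕ} (hH : ∀ a ∈ H, 1 ≤ a) (hb : ∀ a ∈ H, a ≤ b)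
    (hne : H.Nonempty) {s : ℝ} (hs : 0 < s) (U : Set ℝ) {η : ℝ≥0∞} (hη : 0 < η) :
    ∃ w : List ℕ, (∀ a ∈ w, a ∈ H) ∧
      (∀ ω x, (∀ j, ω j ∈ H) → IsOrbit ω x → x 0 ∈ U → pre ω w.length = w) ∧
      wt s w ≤ ENNReal.ofReal ((4 * ((b : ℝ) + 1) ^ 3) ^ s) *
        (⨆ _ : U.Nonempty, Metric.ediam U ^ s) + η := by
  classical
  by_cases hall : ∃ ω : ℕ → ℕ, (∀ j, ω j ∈ H) ∧
      ∀ ω' x', (∀ j, ω' j ∈ H) → IsOrbit ω' x' → x' 0 ∈ U → ω' = ω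
  · obtain ⟨ω, hω, hω'⟩ := hall
    obtain ⟨k, hk⟩ := exists_long_prefix (fun j => hH _ (hω j)) hs hη
    refine ⟨pre ω k, (pre_mem_words hω k).2, fun ω' x' h1 h2 h3 => ?_, hk.trans le_add_self⟩
    rw [hω' ω' x' h1 h2 h3, length_pre]
  · push Not at hall
    obtain ⟨a, ha⟩ := hne
    obtain ⟨ω, x, hω, hx, hxU, -⟩ := hall (fun _ => a) fun _ => ha
    have hex : ∃ j, ∃ ω' x', (∀ j, ω' j ∈ H) ∧ IsOrbit ω' x' ∧ x' 0 ∈ U ∧ ω j ≠ ω' j := by
      obtain ⟨ω', x', h1, h2, h3, h4⟩ := hall ω hω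
      obtain ⟨j, hj⟩ := Function.ne_iff.1 h4
      exact ⟨j, ω', x', h1, h2, h3, hj.symm⟩
    have hmin : ∀ ω' x', (∀ j, ω' j ∈ H) → IsOrbit ω' x' → x' 0 ∈ U →
        ∀ i < Nat.find hex, ω i = ω' i := by
      intro ω' x' h1 h2 h3 i hi
      by_contra hcon
      exact Nat.find_min hex hi ⟨ω', x', h1, h2, h3, hcon⟩
    obtain ⟨ω', x', h1, h2, h3, h4⟩ := Nat.find_spec hex
    refine ⟨pre ω (Nat.find hex), (pre_mem_words hω _).2, fun ω'' x'' g1 g2 g3 => ?_, ?_⟩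
    · rw [length_pre, ← pre_congr (hmin ω'' x'' g1 g2 g3)]
    · refine le_trans ?_ le_self_add
      have hsep := sep_of_ne (fun j => hH _ (hω j)) (fun j => hb _ (hω j))
        (fun j => hH _ (h1 j)) (fun j => hb _ (h1 j)) hx h2 h4 (hmin ω' x' h1 h2 h3)
      have hl : Pos (pre ω (Nat.find hex)) := pos_of_mem_words hH (pre_mem_words hω _)
      have hp := D_pos hl le_rfl
      rw [iSup_pos ⟨_, hxU⟩, wt, Real.rpow_mul hp.le, Real.rpow_two]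
      calc _ ≤ ENNReal.ofReal ((4 * ((b : ℝ) + 1) ^ 3 * |x 0 - x' 0|) ^ s) :=
            ENNReal.ofReal_le_ofReal (Real.rpow_le_rpow (by positivity) hsep hs.le)
        _ = ENNReal.ofReal ((4 * ((b : ℝ) + 1) ^ 3) ^ s) * edist (x 0) (x' 0) ^ s := by
            rw [Real.mul_rpow (by positivity) (abs_nonneg _), ENNReal.ofReal_mul (by positivity),
              edist_dist, Real.dist_eq, ENNReal.ofReal_rpow_of_nonneg (abs_nonneg _) hs.le]
        _ ≤ _ := by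
            gcongr
            exact Metric.edist_le_ediam_of_mem hxU h3

/-- A countable family of cylinders of total weight less than one that covers all sequences. -/
theorem exists_cover {H : Set ℕ} {b : ℕ} (hH : ∀ a ∈ H, 1 ≤ a) (hb : ∀ a ∈ H, a ≤ b)
    (hne : H.Nonempty) {s : ℝ≥0} (hs : dimH (J H) < s) :
    ∃ w : ℕ → List ℕ, (∀ i, ∀ a ∈ w i, a ∈ H) ∧
      (∀ ω : ℕ → ℕ, (∀ j, ω j ∈ H) → ∃ i, pre ω (w i).length = w i) ∧ ∑' i, wt s (w i) < 1 := by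
  have hs0 : (0 : ℝ) < s := by
    have : (0 : ℝ≥0∞) < s := lt_of_le_of_lt zero_le hs
    exact_mod_cast this
  have h0 := hausdorffMeasure_of_dimH_lt hs
  rw [Measure.hausdorffMeasure_apply] at h0
  set K := ENNReal.ofReal ((4 * ((b : ℝ) + 1) ^ 3) ^ (s : ℝ)) with hK
  have hK0 : K ≠ 0 := by
    rw [hK]; exact (ENNReal.ofReal_pos.2 (by positivity)).ne'
  have hKt : K ≠ ∞ := ENNReal.ofReal_ne_top
  have h1 : (⨅ (t : ℕ → Set ℝ) (_ : J H ⊆ ⋃ n, t n) (_ : ∀ n, Metric.ediam (t n) ≤ 1),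
      ∑' n, ⨆ _ : (t n).Nonempty, Metric.ediam (t n) ^ (s : ℝ)) < K⁻¹ * 2⁻¹ := by
    refine lt_of_le_of_lt ?_ (ENNReal.mul_pos (ENNReal.inv_ne_zero.2 hKt) (by simp))
    rw [← h0]
    exact le_iSup₂_of_le (f := fun (r : ℝ≥0∞) (_ : 0 < r) =>
      ⨅ (t : ℕ → Set ℝ) (_ : J H ⊆ ⋃ n, t n) (_ : ∀ n, Metric.ediam (t n) ≤ r),
        ∑' n, ⨆ _ : (t n).Nonempty, Metric.ediam (t n) ^ (s : ℝ)) 1 one_pos le_rfl
  simp only [iInf_lt_iff] at h1
  obtain ⟨t, hcov, -, hsum⟩ := h1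
  obtain ⟨η, hη, hηs⟩ := ENNReal.exists_pos_sum_of_countable' (ε := 2⁻¹) (by simp) ℕ
  choose w hw1 hw2 hw3 using fun i => exists_cyl hH hb hne hs0 (t i) (hη i)
  refine ⟨w, hw1, fun ω hω => ?_, ?_⟩
  · obtain ⟨x, hx⟩ := exists_orbit fun j => hH _ (hω j)
    obtain ⟨i, hi⟩ := mem_iUnion.1 (hcov (hx.mem_J hH hω))
    exact ⟨i, hw2 i ω x hω hx hi⟩
  · calc _ ≤ ∑' i, (K * (⨆ _ : (t i).Nonempty, Metric.ediam (t i) ^ (s : ℝ)) + η i) :=
          ENNReal.tsum_le_tsum hw3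
      _ = K * (∑' i, ⨆ _ : (t i).Nonempty, Metric.ediam (t i) ^ (s : ℝ)) + ∑' i, η i := by
          rw [ENNReal.tsum_add, ENNReal.tsum_mul_left]
      _ ≤ K * (K⁻¹ * 2⁻¹) + ∑' i, η i := by gcongr
      _ = 2⁻¹ + ∑' i, η i := by rw [← mul_assoc, ENNReal.mul_inv_cancel hK0 hKt, one_mul]
      _ < 2⁻¹ + 2⁻¹ := ENNReal.add_lt_add_left (by simp) hηs
      _ = 1 := ENNReal.inv_two_add_inv_two

end Pool.Agent.P.MP_41c62e_nt
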