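import Mathlib
import Pool.Agent.P.MP_41c62e_nt.Lower

/-! Boundedness of the partition function above the dimension, finite alphabets. -/

namespace Pool.Agent.P.MP_41c62e_nt

open Set Filter Topology MeasureTheory
open scoped ENNReal NNReal

theorem words_zero (B : Set ℕ) : words B 0 = {[]} := by
  ext l; simp only [words, mem_ofPred_eq, mem_singleton_iff, List.length_eq_zero_iff]
  exact ⟨fun h => h.1, fun h => ⟨h, by simp [h]⟩⟩

theorem finite_words {H : Set ℕ} (hH : H.Finite) (k : ℕ) : Finite (words H k) := by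
  have := hH.to_subtype
  induction k with
  | zero => rw [words_zero]; infer_instance
  | succ k ih => exact Finite.of_equiv _ (consEquiv H k)

theorem Z_ne_top {H : Set ℕ} (hH : H.Finite) (s : ℝ) (k : ℕ) (x : ℝ) : Z H s k x ≠ ∞ := by
  have := finite_words hH k
  have := Fintype.ofFinite (words H k)
  rw [Z, tsum_fintype]
  exact ENNReal.sum_ne_top.2 fun _ _ => ENNReal.ofReal_ne_top

theorem pre_add (ω : ℕ → ℕ) (m n : ℕ) :
    pre ω (m + n) = pre (fun j => ω (m + j)) n ++ pre ω m := by
  induction n with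
  | zero => rfl
  | succ n ih => rw [← add_assoc, pre, pre, ih]; rfl

theorem exists_pre_eq {H : Set ℕ} (hne : H.Nonempty) (l : List ℕ) (hl : ∀ a ∈ l, a ∈ H) :
    ∃ ω : ℕ → ℕ, (∀ j, ω j ∈ H) ∧ pre ω l.length = l := by
  induction l with
  | nil =>
    obtain ⟨a, ha⟩ := hne
    exact ⟨fun _ => a, fun _ => ha, rfl⟩
  | cons a l ih =>
    obtain ⟨ω, h1, h2⟩ := ih fun c hc => hl c (List.mem_cons_of_mem _ hc)
    refine ⟨Function.update ω l.length a, fun j => ?_, ?_⟩
    · rcases eq_or_ne j l.length with rfl | hj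
      · rw [Function.update_self]; exact hl a List.mem_cons_self
      · rw [Function.update_of_ne hj]; exact h1 j
    · rw [List.length_cons, pre, Function.update_self,
        pre_congr (ω' := ω) fun j hj => Function.update_of_ne hj.ne _ _, h2]

theorem exists_finite_subcover {H : Set ℕ} (hH : H.Finite) (w : ℕ → List ℕ)
    (hw : ∀ ω : ℕ → ℕ, (∀ j, ω j ∈ H) → ∃ i, pre ω (w i).length = w i) :
    ∃ F : Finset ℕ, ∀ ω : ℕ → ℕ, (∀ j, ω j ∈ H) → ∃ i ∈ F, pre ω (w i).length = w i := by
  have := hH.to_subtype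
  let U : ℕ → Set (ℕ → H) := fun i => {ω | pre (fun j => (ω j : ℕ)) (w i).length = w i}
  have hU : ∀ i, IsOpen (U i) := fun i => by
    refine isOpen_iff_mem_nhds.2 fun ω hω => ?_
    have h1 : ∀ᶠ ω' in 𝓝 ω, ∀ j ∈ Finset.range (w i).length, ω' j = ω j :=
      (eventually_all_finset _).2 fun j _ =>
        ((isOpen_discrete {ω j}).preimage (continuous_apply (A := fun _ : ℕ => H) j)).mem_nhds
          (mem_preimage.2 (mem_singleton _))
    filter_upwards [h1] with ω' hω'
    change pre _ _ = _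
    rw [pre_congr (ω' := fun j => (ω j : ℕ)) fun j hj => by rw [hω' j (Finset.mem_range.2 hj)]]
    exact hω
  obtain ⟨F, hF⟩ := isCompact_univ.elim_finite_subcover U hU fun ω _ =>
    mem_iUnion.2 (hw (fun j => ω j) fun j => (ω j).2)
  refine ⟨F, fun ω hω => ?_⟩
  obtain ⟨i, hi, h⟩ := mem_iUnion₂.1 (hF (mem_univ fun j => (⟨ω j, hω j⟩ : H)))
  exact ⟨i, hi, h⟩

theorem tsum_append_le {H : Set ℕ} (hH : ∀ a ∈ H, 1 ≤ a) {s : ℝ} (hs : 0 ≤ s) {w : List ℕ}
    (hw : Pos w) (n : ℕ) :
    ∑' l : ((fun v => v ++ w) '' words H n), ENNReal.ofReal (D l.1 0 ^ (2 * s)) ≤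
      wt s w * Z H s n 0 := by
  rw [tsum_image (fun l => ENNReal.ofReal (D l 0 ^ (2 * s)))
    (fun _ _ _ _ h => List.append_cancel_right h), Z, ← ENNReal.tsum_mul_left]
  refine ENNReal.tsum_le_tsum fun v => ?_
  have hv := pos_of_mem_words hH v.2
  have p1 := D_pos hv le_rfl
  have p2 := phi_nonneg hv le_rfl
  have p3 := D_pos hw p2
  have p4 := D_pos hw le_rfl
  rw [wt, ← ENNReal.ofReal_mul (by positivity), ← Real.mul_rpow p4.le p1.le, D_append]
  refine ENNReal.ofReal_le_ofReal (Real.rpow_le_rpow (by positivity) ?_ (by positivity))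
  rw [mul_comm]
  gcongr
  exact D_le_D_zero hw p2

theorem Z_bounded {H : Set ℕ} (hfin : H.Finite) (hH : ∀ a ∈ H, 1 ≤ a) (hne : H.Nonempty)
    {s : ℝ≥0} (hs : dimH (J H) < s) : ∃ C : ℝ≥0∞, C ≠ ∞ ∧ ∀ k, Z H s k 0 ≤ C := by
  obtain ⟨b, hb⟩ := hfin.bddAbove
  obtain ⟨w, hw1, hw2, hw3⟩ := exists_cover hH (fun a ha => hb ha) hne hs
  obtain ⟨F, hF⟩ := exists_finite_subcover hfin w hw2
  have hlen : ∀ i, 1 ≤ (w i).length := fun i => by
    by_contra hcon
    have h0 : w i = [] := List.length_eq_zero_iff.1 (by omega)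
    have h1 : wt s (w i) < 1 := (ENNReal.le_tsum i).trans_lt hw3
    rw [h0] at h1
    simp [wt, D] at h1
  set N := F.sup fun i => (w i).length with hN
  refine ⟨∑ j ∈ Finset.range N, Z H s j 0, ENNReal.sum_ne_top.2 fun j _ => Z_ne_top hfin _ _ _,
    fun k => ?_⟩
  induction k using Nat.strong_induction_on with
  | _ k ih =>
    by_cases hk : k < N
    · exact Finset.single_le_sum (f := fun j => Z H s j 0) (fun _ _ => zero_le)
        (Finset.mem_range.2 hk)
    · have hsub : words H k ⊆ ⋃ i ∈ F, (fun v => v ++ w i) '' words H (k - (w i).length) := by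
        intro l hl
        obtain ⟨ω, h1, h2⟩ := exists_pre_eq hne l hl.2
        obtain ⟨i, hi, h3⟩ := hF ω h1
        have h4 : (w i).length ≤ N := Finset.le_sup (f := fun i => (w i).length) hi
        refine mem_iUnion₂.2 ⟨i, hi, pre (fun j => ω ((w i).length + j)) (k - (w i).length),
          pre_mem_words (fun j => h1 _) _, ?_⟩
        have h5 := pre_add ω (w i).length (k - (w i).length)
        rw [h3, show (w i).length + (k - (w i).length) = l.length by rw [hl.1]; omega, h2] at h5
        exact h5.symm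
      calc Z H s k 0 ≤ ∑' l : (⋃ i ∈ F, (fun v => v ++ w i) '' words H (k - (w i).length)),
            ENNReal.ofReal (D l.1 0 ^ (2 * (s : ℝ))) :=
            ENNReal.tsum_mono_subtype (fun l => ENNReal.ofReal (D l 0 ^ (2 * (s : ℝ)))) hsub
        _ ≤ ∑ i ∈ F, ∑' l : ((fun v => v ++ w i) '' words H (k - (w i).length)),
            ENNReal.ofReal (D l.1 0 ^ (2 * (s : ℝ))) :=
            ENNReal.tsum_biUnion_le (fun l => ENNReal.ofReal (D l 0 ^ (2 * (s : ℝ)))) F _
        _ ≤ ∑ i ∈ F, wt s (w i) * ∑ j ∈ Finset.range N, Z H s j 0 := by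
            refine Finset.sum_le_sum fun i hi => ?_
            refine (tsum_append_le hH s.coe_nonneg (fun a ha => hH a (hw1 i a ha)) _).trans ?_
            have h4 : (w i).length ≤ N := Finset.le_sup (f := fun i => (w i).length) hi
            have h5 := hlen i
            gcongr
            exact ih _ (by omega)
        _ = (∑ i ∈ F, wt s (w i)) * ∑ j ∈ Finset.range N, Z H s j 0 := by
            rw [Finset.sum_mul]
        _ ≤ 1 * ∑ j ∈ Finset.range N, Z H s j 0 := by
            gcongr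
            exact (ENNReal.sum_le_tsum F).trans hw3.le
        _ = _ := one_mul _

end Pool.Agent.P.MP_41c62e_nt
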