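import Mathlib

/-! A monotone set function with lexicographic gaps has nowhere dense range. -/

namespace Pool.Agent.P.MP_41c62e_nt

open Set Filter Topology

theorem nowhereDense_union {s t : Set ℝ} (hs : IsNowhereDense s) (ht : IsNowhereDense t) :
    IsNowhereDense (s ∪ t) := by
  rw [IsNowhereDense, closure_union, interior_union_isClosed_of_interior_empty isClosed_closure ht]
  exact hs

theorem nowhereDense_biUnion {ι : Type*} (F : Finset ι) (f : ι → Set ℝ)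
    (h : ∀ i ∈ F, IsNowhereDense (f i)) : IsNowhereDense (⋃ i ∈ F, f i) := by
  classical
  induction F using Finset.induction_on with
  | empty => simp
  | insert a F _ ih =>
    rw [Finset.set_biUnion_insert]
    exact nowhereDense_union (h a (Finset.mem_insert_self _ _))
      (ih fun i hi => h i (Finset.mem_insert_of_mem hi))

theorem nowhereDense_of_Ioo {S : Set ℝ} (h : ∀ α β : ℝ, α < β → ¬ Ioo α β ⊆ closure S) :
    IsNowhereDense S := by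
  rw [IsNowhereDense, eq_empty_iff_forall_notMem]
  intro x hx
  obtain ⟨α, β, hx', hsub⟩ := mem_nhds_iff_exists_Ioo_subset.1 (mem_interior_iff_mem_nhds.1 hx)
  exact h α β (hx'.1.trans hx'.2) hsub

theorem exists_mem_of_Ioo_subset {S : Set ℝ} {α β a b : ℝ} (h : Ioo α β ⊆ closure S)
    (h1 : α ≤ a) (h2 : a < b) (h3 : b ≤ β) : ∃ x ∈ S, x ∈ Ioo a b := by
  have hm : (a + b) / 2 ∈ Ioo a b := ⟨by linarith, by linarith⟩
  obtain ⟨x, hx1, hx2⟩ := mem_closure_iff.1 (h ⟨by linarith, by linarith⟩ : (a + b) / 2 ∈ _)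
    (Ioo a b) isOpen_Ioo hm
  exact ⟨x, hx2, hx1⟩

section

variable {δ : Set ℕ → ℝ} {s₁ : ℝ} {N : ℕ}

theorem lex_gap (hmono : ∀ E E', E ⊆ E' → δ E ≤ δ E')
    (hgap : ∀ n, N ≤ n → ∀ G ⊆ Iio n, s₁ < δ (G ∪ Ioi n) → δ (G ∪ Ioi n) < δ (insert n G))
    {E E' : Set ℕ} {k : ℕ} (hk : N ≤ k) (hagree : ∀ j < k, j ∈ E ↔ j ∈ E') (h1 : k ∉ E)
    (h2 : k ∈ E') (h3 : s₁ < δ E) :
    δ E ≤ δ (E ∩ Iio k ∪ Ioi k) ∧ δ (E ∩ Iio k ∪ Ioi k) < δ (insert k (E ∩ Iio k)) ∧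
      δ (insert k (E ∩ Iio k)) ≤ δ E' := by
  have a1 : δ E ≤ δ (E ∩ Iio k ∪ Ioi k) := hmono _ _ fun j hj => by
    rcases lt_trichotomy j k with h | rfl | h
    · exact Or.inl ⟨hj, h⟩
    · exact absurd hj h1
    · exact Or.inr h
  refine ⟨a1, hgap k hk _ inter_subset_right (h3.trans_le a1), hmono _ _ ?_⟩
  rintro j (rfl | hj)
  · exact h2
  · exact (hagree j hj.2).1 hj.1

theorem lex_lt (hmono : ∀ E E', E ⊆ E' → δ E ≤ δ E')
    (hgap : ∀ n, N ≤ n → ∀ G ⊆ Iio n, s₁ < δ (G ∪ Ioi n) → δ (G ∪ Ioi n) < δ (insert n G))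
    {E E' : Set ℕ} {k : ℕ} (hk : N ≤ k) (hagree : ∀ j < k, j ∈ E ↔ j ∈ E') (h1 : k ∉ E)
    (h2 : k ∈ E') (h3 : s₁ < δ E) : δ E < δ E' := by
  obtain ⟨a1, a2, a3⟩ := lex_gap hmono hgap hk hagree h1 h2 h3
  linarith

theorem exists_first_diff {E E' : Set ℕ} {n : ℕ} (h : ¬ ∀ j < n, j ∈ E ↔ j ∈ E') :
    ∃ k < n, (∀ j < k, j ∈ E ↔ j ∈ E') ∧ ¬ (k ∈ E ↔ k ∈ E') := by
  classical
  have hex : ∃ k, k < n ∧ ¬ (k ∈ E ↔ k ∈ E') := by
    by_contra hcon
    exact h fun j hj => by_contra fun hj' => hcon ⟨j, hj, hj'⟩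
  refine ⟨Nat.find hex, (Nat.find_spec hex).1, fun j hj => ?_, (Nat.find_spec hex).2⟩
  by_contra hj'
  exact Nat.find_min hex hj ⟨hj.trans (Nat.find_spec hex).1, hj'⟩

theorem nowhereDense_prefix (hmono : ∀ E E', E ⊆ E' → δ E ≤ δ E')
    (hgap : ∀ n, N ≤ n → ∀ G ⊆ Iio n, s₁ < δ (G ∪ Ioi n) → δ (G ∪ Ioi n) < δ (insert n G))
    (F : Set ℕ) :
    IsNowhereDense {s | ∃ E, (∀ j < N, j ∈ E ↔ j ∈ F) ∧ s₁ < δ E ∧ s = δ E} := by
  refine nowhereDense_of_Ioo fun α β hαβ hsub => ?_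
  obtain ⟨_, ⟨E, hE1, hE2, rfl⟩, hE3⟩ := exists_mem_of_Ioo_subset hsub le_rfl hαβ le_rfl
  obtain ⟨_, ⟨E', hE1', hE2', rfl⟩, hE3'⟩ := exists_mem_of_Ioo_subset hsub hE3.1.le hE3.2 le_rfl
  have hne : ∃ m, ¬ ∀ j < m, j ∈ E ↔ j ∈ E' := by
    by_contra hcon
    push Not at hcon
    have : E = E' := Set.ext fun j => hcon (j + 1) j (Nat.lt_succ_self j)
    rw [this] at hE3'
    exact lt_irrefl _ hE3'.1
  obtain ⟨m, hm⟩ := hne
  obtain ⟨n, -, hn1, hn2⟩ := exists_first_diff hm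
  have hN : N ≤ n := by
    by_contra hcon
    exact hn2 ((hE1 n (by omega)).trans (hE1' n (by omega)).symm)
  have hnE : n ∉ E := fun h =>
    absurd (lex_lt hmono hgap hN (fun j hj => (hn1 j hj).symm)
      (fun h' => hn2 ⟨fun _ => h', fun _ => h⟩) h hE2') (not_lt.2 hE3'.1.le)
  have hnE' : n ∈ E' := by
    by_contra h
    exact hn2 ⟨fun h' => absurd h' hnE, fun h' => absurd h' h⟩
  obtain ⟨a1, a2, a3⟩ := lex_gap hmono hgap hN hn1 hnE hnE' hE2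
  obtain ⟨_, ⟨E'', hE1'', hE2'', rfl⟩, b1, b2⟩ := exists_mem_of_Ioo_subset hsub
    (hE3.1.le.trans a1) a2 (a3.trans hE3'.2.le)
  by_cases hag : ∀ j < n, j ∈ E ↔ j ∈ E''
  · by_cases hn : n ∈ E''
    · exact absurd (lex_gap hmono hgap hN hag hnE hn hE2).2.2 (not_le.2 b2)
    · refine absurd (hmono E'' (E ∩ Iio n ∪ Ioi n) fun j hj => ?_) (not_le.2 b1)
      rcases lt_trichotomy j n with h | rfl | h
      · exact Or.inl ⟨(hag j h).2 hj, h⟩
      · exact absurd hj hn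
      · exact Or.inr h
  · obtain ⟨k, hk0, hk1, hk2⟩ := exists_first_diff hag
    have hNk : N ≤ k := by
      by_contra hcon
      exact hk2 ((hE1 k (by omega)).trans (hE1'' k (by omega)).symm)
    by_cases hk : k ∈ E
    · have hk'' : k ∉ E'' := fun h => hk2 ⟨fun _ => h, fun _ => hk⟩
      refine absurd (lex_lt hmono hgap (E := E'') (E' := E ∩ Iio n ∪ Ioi n) hNk (fun j hj => ?_)
        hk'' (Or.inl ⟨hk, hk0⟩) hE2'') (not_lt.2 b1.le)
      rw [← hk1 j hj]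
      constructor
      · exact fun h => Or.inl ⟨h, hj.trans hk0⟩
      · rintro (h | h)
        · exact h.1
        · exact absurd (hj.trans hk0) (not_lt.2 (le_of_lt h))
    · have hk'' : k ∈ E'' := by
        by_contra h
        exact hk2 ⟨fun h' => absurd h' hk, fun h' => absurd h' h⟩
      refine absurd (lex_lt hmono hgap (E := insert n (E ∩ Iio n)) (E' := E'') hNk
        (fun j hj => ?_) ?_ hk'' (by linarith)) (not_lt.2 b2.le)
      · rw [← hk1 j hj]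
        constructor
        · rintro (h | h)
          · omega
          · exact h.1
        · exact fun h => Or.inr ⟨h, hj.trans hk0⟩
      · rintro (h | h)
        · omega
        · exact hk h.1

theorem nowhereDense_above (hmono : ∀ E E', E ⊆ E' → δ E ≤ δ E')
    (hgap : ∀ n, N ≤ n → ∀ G ⊆ Iio n, s₁ < δ (G ∪ Ioi n) → δ (G ∪ Ioi n) < δ (insert n G)) :
    IsNowhereDense (range δ ∩ Ioi s₁) := by
  classical
  refine (nowhereDense_biUnion (Finset.range N).powerset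
    (fun F => {s | ∃ E, (∀ j < N, j ∈ E ↔ j ∈ (F : Set ℕ)) ∧ s₁ < δ E ∧ s = δ E})
    fun F _ => nowhereDense_prefix hmono hgap F).mono ?_
  rintro _ ⟨⟨E, rfl⟩, hE⟩
  refine mem_iUnion₂.2 ⟨(Finset.range N).filter (· ∈ E),
    Finset.mem_powerset.2 (Finset.filter_subset _ _), E, fun j hj => ?_, hE, rfl⟩
  simp [hj]

end

theorem nowhereDense_Ioi {S : Set ℝ} {s₀ : ℝ} (h : ∀ s₁, s₀ < s₁ → IsNowhereDense (S ∩ Ioi s₁)) :
    IsNowhereDense (S ∩ Ioi s₀) := by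
  refine nowhereDense_of_Ioo fun α β hαβ hsub => ?_
  obtain ⟨x, hx, hx'⟩ := exists_mem_of_Ioo_subset hsub le_rfl hαβ le_rfl
  have h1 : Ioo x β ⊆ closure (S ∩ Ioi x) := by
    intro y hy
    have h2 : y ∈ Ioi x ∩ closure (S ∩ Ioi s₀) := ⟨hy.1, hsub ⟨hx'.1.trans hy.1, hy.2⟩⟩
    refine closure_mono ?_ (isOpen_Ioi.inter_closure h2)
    exact fun z hz => ⟨hz.2.1, hz.1⟩
  have h3 : Ioo x β ⊆ interior (closure (S ∩ Ioi x)) := interior_maximal h1 isOpen_Ioo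
  rw [h x hx.2] at h3
  exact h3 (⟨by linarith [hx'.2], by linarith [hx'.2]⟩ : (x + β) / 2 ∈ Ioo x β)

end Pool.Agent.P.MP_41c62e_nt
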