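import Mathlib
import Pool.Agent.P.MP_41c62e_nt.Bowen

/-! The strict gap: replacing a thin tail `T` of large digits by the single digit `b`
strictly increases the dimension. -/

namespace Pool.Agent.P.MP_41c62e_nt

open Set Filter Topology MeasureTheory
open scoped ENNReal NNReal

theorem term_le_mul {B : Set ℕ} (hB : ∀ a ∈ B, 1 ≤ a) {s : ℝ} (hs : 0 ≤ s) (k : ℕ) {x : ℝ}
    (hx : 0 ≤ x) {a b : ℕ} (ha : 1 ≤ a) (hb : 1 ≤ b) {c : ℝ} (hc : 0 ≤ c)
    (h : ∀ l, Pos l → D (a :: l) x ≤ c * D (b :: l) x) :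
    term B s k x a ≤ ENNReal.ofReal (c ^ (2 * s)) * term B s k x b := by
  rw [term, term, ← ENNReal.tsum_mul_left]
  refine ENNReal.tsum_le_tsum fun l => ?_
  have hl := pos_of_mem_words hB l.2
  have hcons : ∀ {e : ℕ}, 1 ≤ e → Pos (e :: l.1) := fun he c hc => by
    rcases List.mem_cons.1 hc with rfl | hc
    · exact he
    · exact hl c hc
  have p1 := D_pos (hcons ha) hx
  have p2 := D_pos (hcons hb) hx
  rw [← ENNReal.ofReal_mul (by positivity), ← Real.mul_rpow hc p2.le]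
  exact ENNReal.ofReal_le_ofReal (Real.rpow_le_rpow p1.le (h l.1 hl) (by positivity))

theorem aux_ineq {S t : ℝ≥0∞} (ht : t ≠ ∞) {ρ M κ : ℝ≥0} (hS : S ≤ M * t) (hκ1 : κ ≤ 1)
    (hκ : (1 - (κ : ℝ)) * (M + 1) ≤ 1 - ρ) : S + ρ * t ≤ κ * (S + t) := by
  have hS' : S ≠ ∞ := ne_top_of_le_ne_top (ENNReal.mul_ne_top ENNReal.coe_ne_top ht) hS
  lift t to ℝ≥0 using ht
  lift S to ℝ≥0 using hS'
  norm_cast at hS ⊢
  have h1 : (S : ℝ) ≤ M * t := by exact_mod_cast hS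
  have h2 : (κ : ℝ) ≤ 1 := by exact_mod_cast hκ1
  have h3 : (S : ℝ) + ρ * t ≤ κ * (S + t) := by
    have t0 := t.coe_nonneg
    have h4 : (1 - (κ : ℝ)) * (S + t) ≤ (1 - (κ : ℝ)) * (M * t + t) :=
      mul_le_mul_of_nonneg_left (by linarith) (by linarith)
    have h5 : (1 - (κ : ℝ)) * (M + 1) * t ≤ (1 - ρ) * t := mul_le_mul_of_nonneg_right hκ t0
    nlinarith
  exact_mod_cast h3

theorem step_ineq {G T : Set ℕ} {b : ℕ} (hb : 1 ≤ b) (hG : ∀ a ∈ G, 1 ≤ a ∧ a < b)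
    (hT : ∀ a ∈ T, b ≤ a) {s : ℝ} (hs : 0 ≤ s) (hs1 : s ≤ 1) {ρ κ : ℝ≥0}
    (hρ : ∑' a : T, ENNReal.ofReal (((b : ℝ) / (a : ℕ) * (1 + 1 / b) ^ 2) ^ (2 * s)) ≤ ρ)
    (hκ1 : κ ≤ 1) (hκ : (1 - (κ : ℝ)) * ((b : ℝ) ^ 3 + 1) ≤ 1 - ρ)
    (k : ℕ) {x : ℝ} (hx : 0 ≤ x) (hx1 : x ≤ 1) :
    ∑' a : (G ∪ T : Set ℕ), term (insert b G) s k x a ≤
      κ * ∑' a : (insert b G : Set ℕ), term (insert b G) s k x a := by
  have hH : ∀ a ∈ insert b G, 1 ≤ a := by
    rintro a (rfl | ha)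
    · exact hb
    · exact (hG a ha).1
  have hb' : (1 : ℝ) ≤ b := by exact_mod_cast hb
  have hGsub : G ⊆ (Finset.range b : Set ℕ) := fun a ha => by simpa using (hG a ha).2
  have hfin : (insert b G).Finite := ((Finset.range b).finite_toSet.subset hGsub).insert b
  set t := term (insert b G) s k x b with ht
  set S := ∑' a : G, term (insert b G) s k x a with hS
  have ht' : t ≠ ∞ := by
    rw [ht, term_eq hH s k hx hb]
    exact ENNReal.mul_ne_top ENNReal.ofReal_ne_top (Z_ne_top hfin _ _ _)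
  have h1 : ∑' a : T, term (insert b G) s k x a ≤ ρ * t := by
    refine le_trans ?_ (mul_le_mul_left hρ t)
    rw [← ENNReal.tsum_mul_right]
    refine ENNReal.tsum_le_tsum fun a => ?_
    exact term_le_mul hH hs k hx (hb.trans (hT a a.2)) hb (by positivity)
      fun l hl => D_cons_le_of_ge hl hb (hT a a.2) hx hx1
  have h2 : S ≤ ((b : ℝ≥0) ^ 3 : ℝ≥0) * t := by
    have h3 : ∀ a : G, term (insert b G) s k x a ≤ (b : ℝ≥0∞) ^ 2 * t := fun a => by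
      refine (term_le_mul hH hs k hx (hG a a.2).1 hb (by positivity)
        fun l hl => D_cons_le_of_le hl (hG a a.2).1 (hG a a.2).2.le hx).trans ?_
      gcongr
      calc ENNReal.ofReal ((b : ℝ) ^ (2 * s)) ≤ ENNReal.ofReal ((b : ℝ) ^ (2 : ℝ)) :=
            ENNReal.ofReal_le_ofReal (Real.rpow_le_rpow_of_exponent_le hb' (by linarith))
        _ = _ := by
            rw [Real.rpow_two, ENNReal.ofReal_pow (by positivity), ENNReal.ofReal_natCast]
    calc S ≤ ∑' _ : G, (b : ℝ≥0∞) ^ 2 * t := ENNReal.tsum_le_tsum h3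
      _ ≤ ∑' _ : (Finset.range b : Set ℕ), (b : ℝ≥0∞) ^ 2 * t :=
          ENNReal.tsum_mono_subtype (fun _ => (b : ℝ≥0∞) ^ 2 * t) hGsub
      _ = ∑ _ ∈ Finset.range b, (b : ℝ≥0∞) ^ 2 * t :=
          Finset.tsum_subtype' (Finset.range b) fun _ => (b : ℝ≥0∞) ^ 2 * t
      _ = _ := by
          rw [Finset.sum_const, Finset.card_range, nsmul_eq_mul]
          push_cast
          ring
  have h4 : ∑' a : (insert b G : Set ℕ), term (insert b G) s k x a = S + t := by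
    have hd : Disjoint G {b} := disjoint_singleton_right.2 fun h => lt_irrefl _ (hG b h).2
    have e : (insert b G : Set ℕ) = G ∪ {b} := by rw [union_singleton]
    calc _ = ∑' a : (G ∪ {b} : Set ℕ), term (insert b G) s k x a :=
          tsum_congr_set_coe (term (insert b G) s k x) e
      _ = S + ∑' a : ({b} : Set ℕ), term (insert b G) s k x a :=
          Summable.tsum_union_disjoint (f := term (insert b G) s k x) hd ENNReal.summable
            ENNReal.summable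
      _ = S + t := by rw [tsum_singleton b (term (insert b G) s k x)]
  rw [h4]
  calc _ ≤ S + ∑' a : T, term (insert b G) s k x a :=
        ENNReal.tsum_union_le (term (insert b G) s k x) G T
    _ ≤ S + ρ * t := by gcongr
    _ ≤ _ := aux_ineq ht' h2 hκ1 (by push_cast; exact hκ)

theorem Z_le_pow {B H : Set ℕ} (hB : ∀ a ∈ B, 1 ≤ a) (hH : ∀ a ∈ H, 1 ≤ a) {s : ℝ} {κ : ℝ≥0∞}
    (h : ∀ k x, 0 ≤ x → x ≤ 1 → ∑' a : B, term H s k x a ≤ κ * ∑' a : H, term H s k x a)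
    (k : ℕ) {x : ℝ} (hx : 0 ≤ x) (hx1 : x ≤ 1) : Z B s k x ≤ κ ^ k * Z H s k x := by
  induction k generalizing x with
  | zero => simp [Z_zero]
  | succ k ih =>
    rw [Z_succ_eq, Z_succ_eq]
    calc _ ≤ ∑' a : B, κ ^ k * term H s k x a := by
          refine ENNReal.tsum_le_tsum fun a => ?_
          have ha := hB a a.2
          have ha' : (1 : ℝ) ≤ (a : ℕ) := by exact_mod_cast ha
          rw [term_eq hB s k hx ha, term_eq hH s k hx ha, mul_left_comm]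
          gcongr
          exact ih (step_pos ha' hx).le (step_le_one ha' hx)
      _ = κ ^ k * ∑' a : B, term H s k x a := ENNReal.tsum_mul_left
      _ ≤ κ ^ k * (κ * ∑' a : H, term H s k x a) := by gcongr; exact h k x hx hx1
      _ = _ := by rw [pow_succ, mul_assoc]

theorem Z_le_of_exponent {H : Set ℕ} (hH : ∀ a ∈ H, 1 ≤ a) {b : ℕ} (hb : ∀ a ∈ H, a ≤ b)
    {s s' : ℝ} (hss : s ≤ s') (k : ℕ) :
    Z H s k 0 ≤ ENNReal.ofReal (((b : ℝ) + 1) ^ (2 * (s' - s))) ^ k * Z H s' k 0 := by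
  rw [Z, Z, ← ENNReal.tsum_mul_left]
  refine ENNReal.tsum_le_tsum fun l => ?_
  have hl := pos_of_mem_words hH l.2
  have p1 := D_pos hl le_rfl
  have h1 := le_D hl (fun a ha => hb a (l.2.2 a ha)) le_rfl zero_le_one
  rw [l.2.1] at h1
  rw [← ENNReal.ofReal_pow (by positivity), ← ENNReal.ofReal_mul (by positivity)]
  refine ENNReal.ofReal_le_ofReal ?_
  have h2 : 1 ≤ ((b : ℝ) + 1) ^ k * D l.1 0 := by
    calc (1 : ℝ) = ((b : ℝ) + 1) ^ k * (1 / ((b : ℝ) + 1)) ^ k := by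
          rw [← mul_pow, mul_one_div_cancel (by positivity), one_pow]
      _ ≤ _ := by gcongr
  have h3 : 1 ≤ (((b : ℝ) + 1) ^ k * D l.1 0) ^ (2 * (s' - s)) :=
    Real.one_le_rpow h2 (by linarith)
  calc D l.1 0 ^ (2 * s) ≤ (((b : ℝ) + 1) ^ k * D l.1 0) ^ (2 * (s' - s)) * D l.1 0 ^ (2 * s) :=
        le_mul_of_one_le_left (by positivity) h3
    _ = _ := by
        rw [Real.mul_rpow (by positivity) p1.le, mul_assoc, ← Real.rpow_add p1,
          ← Real.rpow_natCast, ← Real.rpow_natCast, ← Real.rpow_mul (by positivity),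
          ← Real.rpow_mul (by positivity), mul_comm (k : ℝ)]
        congr 2
        ring

/-- The dimension as a real number. -/
noncomputable def dm (B : Set ℕ) : ℝ := (dimH (J B)).toReal

theorem dimH_J_le_one (B : Set ℕ) : dimH (J B) ≤ 1 :=
  (dimH_mono (subset_univ _)).trans Real.dimH_univ.le

theorem dimH_J_ne_top (B : Set ℕ) : dimH (J B) ≠ ∞ := Real.dimH_ne_top _

theorem dm_le_one (B : Set ℕ) : dm B ≤ 1 :=
  ENNReal.toReal_le_of_le_ofReal zero_le_one (by simpa using dimH_J_le_one B)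

theorem dm_mono {B B' : Set ℕ} (h : B ⊆ B') : dm B ≤ dm B' :=
  ENNReal.toReal_mono (dimH_J_ne_top _) (dimH_mono fun _ hx => ⟨hx.1, hx.2.1, fun n => h (hx.2.2 n)⟩)

theorem gap {G T : Set ℕ} {b : ℕ} (hb : 1 ≤ b) (hG : ∀ a ∈ G, 1 ≤ a ∧ a < b)
    (hT : ∀ a ∈ T, b ≤ a) {s₁ : ℝ} (hs₁ : 0 ≤ s₁) {ρ : ℝ≥0} (hρ1 : ρ < 1)
    (hρ : ∀ s : ℝ, s₁ ≤ s → s ≤ 1 →
      ∑' a : T, ENNReal.ofReal (((b : ℝ) / (a : ℕ) * (1 + 1 / b) ^ 2) ^ (2 * s)) ≤ ρ)
    (hd : s₁ < dm (G ∪ T)) : dm (G ∪ T) < dm (insert b G) := by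
  by_contra hcon
  rw [not_lt] at hcon
  have hH : ∀ a ∈ insert b G, 1 ≤ a := by
    rintro a (rfl | ha)
    · exact hb
    · exact (hG a ha).1
  have hHb : ∀ a ∈ insert b G, a ≤ b := by
    rintro a (rfl | ha)
    · exact le_rfl
    · exact (hG a ha).2.le
  have hB : ∀ a ∈ G ∪ T, 1 ≤ a := by
    rintro a (ha | ha)
    · exact (hG a ha).1
    · exact hb.trans (hT a ha)
  have hfin : (insert b G).Finite := (finite_le_nat b).subset hHb
  have hρ1' : (ρ : ℝ) < 1 := by exact_mod_cast hρ1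
  have hρ0 := ρ.coe_nonneg
  have hM : (1 : ℝ) ≤ (b : ℝ) ^ 3 + 1 := le_add_of_nonneg_left (by positivity)
  have hq0 : 0 < (1 - (ρ : ℝ)) / ((b : ℝ) ^ 3 + 1) := div_pos (by linarith) (by linarith)
  have hq1 : (1 - (ρ : ℝ)) / ((b : ℝ) ^ 3 + 1) ≤ 1 := by
    rw [div_le_one (by linarith)]; linarith
  let κ : ℝ≥0 := ⟨1 - (1 - ρ) / ((b : ℝ) ^ 3 + 1), by linarith⟩
  have hκv : (κ : ℝ) = 1 - (1 - ρ) / ((b : ℝ) ^ 3 + 1) := rfl
  have hκ1 : (κ : ℝ) < 1 := by rw [hκv]; linarith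
  have hκ : (1 - (κ : ℝ)) * ((b : ℝ) ^ 3 + 1) ≤ 1 - ρ := by
    rw [hκv, sub_sub_cancel, div_mul_cancel₀ _ (by linarith)]
  -- choose the width
  obtain ⟨ε, hε0, hε1, hε2⟩ : ∃ ε : ℝ, 0 < ε ∧ ε < dm (G ∪ T) - s₁ ∧
      (κ : ℝ) * ((b : ℝ) + 1) ^ (2 * (2 * ε)) < 1 := by
    have hc : ContinuousAt (fun ε : ℝ => (κ : ℝ) * ((b : ℝ) + 1) ^ (2 * (2 * ε))) 0 := by
      refine continuousAt_const.mul (ContinuousAt.rpow continuousAt_const (by fun_prop) ?_)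
      exact Or.inl (by positivity)
    have h1 : ∀ᶠ ε : ℝ in 𝓝 0, (κ : ℝ) * ((b : ℝ) + 1) ^ (2 * (2 * ε)) < 1 :=
      hc.eventually (gt_mem_nhds (by simpa using hκ1))
    have h2 : ∀ᶠ ε : ℝ in 𝓝 0, ε < dm (G ∪ T) - s₁ := gt_mem_nhds (by linarith)
    have h3 : ∀ᶠ ε : ℝ in 𝓝[>] 0, 0 < ε := self_mem_nhdsWithin
    obtain ⟨ε, h⟩ := (h3.and ((h2.and h1).filter_mono nhdsWithin_le_nhds)).exists
    exact ⟨ε, h.1, h.2.1, h.2.2⟩
  have hd1 := dm_le_one (G ∪ T)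
  let s : ℝ≥0 := ⟨dm (G ∪ T) - ε, by linarith⟩
  let s' : ℝ≥0 := ⟨dm (G ∪ T) + ε, by linarith⟩
  have hsv : (s : ℝ) = dm (G ∪ T) - ε := rfl
  have hsv' : (s' : ℝ) = dm (G ∪ T) + ε := rfl
  have hlt : dimH (J (insert b G)) < s' := by
    rw [← ENNReal.toReal_lt_toReal (dimH_J_ne_top _) ENNReal.coe_ne_top, ENNReal.coe_toReal, hsv']
    change dm (insert b G) < _
    linarith
  obtain ⟨C, hC, hZ⟩ := Z_bounded hfin hH (insert_nonempty _ _) hlt
  have hle : dimH (J (G ∪ T)) ≤ s := by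
    refine dimH_le_of_Z hB s hC fun k => ?_
    have h1 := Z_le_pow hB hH (s := s) (κ := κ) (fun k x hx hx1 => step_ineq hb hG hT
      s.coe_nonneg (by linarith) (hρ s (by linarith) (by linarith))
      (by exact_mod_cast hκ1.le) hκ k hx hx1) k le_rfl zero_le_one
    have h2 := Z_le_of_exponent hH hHb (s := s) (s' := s') (by linarith) k
    have h3 : (κ : ℝ≥0∞) * ENNReal.ofReal (((b : ℝ) + 1) ^ (2 * ((s' : ℝ) - s))) ≤ 1 := by
      rw [← ENNReal.ofReal_coe_nnreal, ← ENNReal.ofReal_mul κ.coe_nonneg,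
        show (s' : ℝ) - s = 2 * ε by rw [hsv, hsv']; ring]
      exact ENNReal.ofReal_le_one.2 hε2.le
    calc _ ≤ _ := h1
      _ ≤ (κ : ℝ≥0∞) ^ k * (ENNReal.ofReal (((b : ℝ) + 1) ^ (2 * ((s' : ℝ) - s))) ^ k * C) := by
          gcongr
          exact h2.trans (by gcongr; exact hZ k)
      _ = ((κ : ℝ≥0∞) * ENNReal.ofReal (((b : ℝ) + 1) ^ (2 * ((s' : ℝ) - s)))) ^ k * C := by
          rw [mul_pow, mul_assoc]
      _ ≤ 1 ^ k * C := by gcongr
      _ = C := by rw [one_pow, one_mul]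
  have h4 : dm (G ∪ T) ≤ s := by
    have := ENNReal.toReal_mono ENNReal.coe_ne_top hle
    rwa [ENNReal.coe_toReal] at this
  linarith

end Pool.Agent.P.MP_41c62e_nt
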