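import Mathlib
import Pool.Agent.P.MP_41c62e_nt.Gap
import Pool.Agent.P.MP_41c62e_nt.Comb

/-! The gap property for powers of `q` and the main theorem. -/

namespace Pool.Agent.P.MP_41c62e_nt

open Set Filter Topology
open scoped ENNReal NNReal

theorem tail_le {q : ℕ} (hq : 2 ≤ q) {s₁ s : ℝ} (hs₁ : 0 < s₁) (hs : s₁ ≤ s) (hs1 : s ≤ 1)
    (n : ℕ) :
    ∑' a : ((fun m => q ^ m) '' Ioi n),
        ENNReal.ofReal ((((q ^ n : ℕ) : ℝ) / (a : ℕ) * (1 + 1 / (q ^ n : ℕ)) ^ 2) ^ (2 * s)) ≤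
      ENNReal.ofReal ((1 + 1 / ((q ^ n : ℕ) : ℝ)) ^ 4 *
        ((1 / (q : ℝ)) ^ (2 * s₁) * (1 - (1 / (q : ℝ)) ^ (2 * s₁))⁻¹)) := by
  have hq' : (2 : ℝ) ≤ q := by exact_mod_cast hq
  have hq0 : (0 : ℝ) < 1 / q := by positivity
  have hq1 : 1 / (q : ℝ) < 1 := by rw [div_lt_one (by linarith)]; linarith
  set r := (1 / (q : ℝ)) ^ (2 * s₁) with hr
  have hr0 : 0 ≤ r := by positivity
  have hr1 : r < 1 := Real.rpow_lt_one hq0.le hq1 (by positivity)
  set c := 1 + 1 / ((q ^ n : ℕ) : ℝ) with hc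
  have hc1 : 1 ≤ c := le_add_of_nonneg_right (by positivity)
  let f : ℕ → ((fun m => q ^ m) '' Ioi n) := fun j => ⟨q ^ (n + 1 + j), n + 1 + j, by
    simp only [mem_Ioi]; omega, rfl⟩
  have hf : Function.Surjective f := by
    rintro ⟨_, m, hm, rfl⟩
    refine ⟨m - (n + 1), Subtype.ext ?_⟩
    have : n + 1 + (m - (n + 1)) = m := by simp only [mem_Ioi] at hm; omega
    simp only [f, this]
  refine (ENNReal.tsum_le_tsum_comp_of_surjective hf _).trans ?_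
  have hsum : Summable fun j : ℕ => c ^ 4 * (r * r ^ j) :=
    ((summable_geometric_of_lt_one hr0 hr1).mul_left r).mul_left _
  rw [← tsum_geometric_of_lt_one hr0 hr1, ← tsum_mul_left, ← tsum_mul_left,
    ENNReal.ofReal_tsum_of_nonneg (fun j => by positivity) hsum]
  refine ENNReal.tsum_le_tsum fun j => ENNReal.ofReal_le_ofReal ?_
  have e : ((q ^ n : ℕ) : ℝ) / ((f j : ℕ) : ℝ) = (1 / (q : ℝ)) ^ (j + 1) := by
    simp only [f]
    push_cast
    rw [one_div_pow, add_assoc, pow_add, add_comm 1 j]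
    field_simp
  rw [e, Real.mul_rpow (by positivity) (by positivity), mul_comm]
  refine mul_le_mul ?_ ?_ (by positivity) (by positivity)
  · calc (c ^ 2) ^ (2 * s) ≤ (c ^ 2) ^ (2 : ℝ) :=
          Real.rpow_le_rpow_of_exponent_le (one_le_pow₀ hc1) (by linarith)
      _ = c ^ 4 := by rw [Real.rpow_two]; ring
  · calc ((1 / (q : ℝ)) ^ (j + 1)) ^ (2 * s) ≤ ((1 / (q : ℝ)) ^ (j + 1)) ^ (2 * s₁) :=
          Real.rpow_le_rpow_of_exponent_ge (by positivity) (pow_le_one₀ hq0.le hq1.le)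
            (by linarith)
      _ = r * r ^ j := by
          rw [← pow_succ', hr, ← Real.rpow_natCast, ← Real.rpow_natCast, ← Real.rpow_mul hq0.le,
            ← Real.rpow_mul hq0.le, mul_comm]

theorem ratio_lt_one {q : ℕ} (hq : 2 ≤ q) {s₁ : ℝ} (hs₁ : Real.log 2 / (2 * Real.log q) < s₁) :
    (1 / (q : ℝ)) ^ (2 * s₁) * (1 - (1 / (q : ℝ)) ^ (2 * s₁))⁻¹ < 1 := by
  have hq' : (2 : ℝ) ≤ q := by exact_mod_cast hq
  have hlog : 0 < Real.log q := Real.log_pos (by linarith)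
  have h1 : (1 / (q : ℝ)) ^ (2 * s₁) < 1 / 2 := by
    rw [div_lt_iff₀ (by positivity)] at hs₁
    rw [Real.rpow_def_of_pos (by positivity), ← Real.exp_log (show (0 : ℝ) < 1 / 2 by norm_num),
      Real.exp_lt_exp, one_div, one_div, Real.log_inv, Real.log_inv]
    linarith
  rw [← div_eq_mul_inv, div_lt_one (by linarith)]
  linarith

theorem exists_gap {q : ℕ} (hq : 2 ≤ q) {s₁ : ℝ} (hs₁ : Real.log 2 / (2 * Real.log q) < s₁) :
    ∃ N : ℕ, ∀ n, N ≤ n → ∀ G ⊆ Iio n, s₁ < dm ((fun m => q ^ m) '' (G ∪ Ioi n)) →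
      dm ((fun m => q ^ m) '' (G ∪ Ioi n)) < dm ((fun m => q ^ m) '' insert n G) := by
  have hq' : (2 : ℝ) ≤ q := by exact_mod_cast hq
  have hs0 : 0 < s₁ := lt_of_le_of_lt (div_nonneg (Real.log_nonneg one_le_two)
    (mul_nonneg zero_le_two (Real.log_nonneg (by linarith)))) hs₁
  set R := (1 / (q : ℝ)) ^ (2 * s₁) * (1 - (1 / (q : ℝ)) ^ (2 * s₁))⁻¹ with hR
  have hR1 : R < 1 := ratio_lt_one hq hs₁
  have ht : Tendsto (fun n : ℕ => (1 + 1 / ((q ^ n : ℕ) : ℝ)) ^ 4 * R) atTop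
      (𝓝 ((1 + 0) ^ 4 * R)) := by
    refine ((tendsto_const_nhds.add ?_).pow 4).mul_const R
    exact (tendsto_one_div_atTop_nhds_zero_nat (𝕜 := ℝ)).comp
      (tendsto_pow_atTop_atTop_of_one_lt (by omega))
  obtain ⟨N, hN⟩ := eventually_atTop.1 (ht.eventually (gt_mem_nhds (by simpa using hR1)))
  refine ⟨N, fun n hn G hG hd => ?_⟩
  rw [image_union] at hd ⊢
  rw [image_insert_eq]
  refine gap (ρ := ((1 + 1 / ((q ^ n : ℕ) : ℝ)) ^ 4 * R).toNNReal)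
    (Nat.one_le_pow _ _ (by omega)) ?_ ?_ hs0.le ?_ (fun s h1 h2 => ?_) hd
  · rintro _ ⟨m, hm, rfl⟩
    exact ⟨Nat.one_le_pow _ _ (by omega), Nat.pow_lt_pow_right (by omega) (hG hm)⟩
  · rintro _ ⟨m, hm, rfl⟩
    exact Nat.pow_le_pow_right (by omega) (le_of_lt hm)
  · exact Real.toNNReal_lt_one.2 (hN n hn)
  · exact tail_le hq hs0 h1 h2 n

theorem DS_subset (q : ℕ) : DS (Pstar q) ⊆ range fun E : Set ℕ => dm ((fun m => q ^ m) '' E) := by
  rintro _ ⟨B, hB, rfl⟩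
  refine ⟨(fun m => q ^ m) ⁻¹' B, ?_⟩
  have : (fun m => q ^ m) '' ((fun m => q ^ m) ⁻¹' B) = B := by
    refine image_preimage_eq_of_subset (hB.trans ?_)
    rintro _ (⟨n, -, rfl⟩ | rfl)
    · exact ⟨n, rfl⟩
    · exact ⟨0, pow_zero q⟩
  simp only [this]
  rfl

theorem main {q : ℕ} (hq : 2 ≤ q) :
    IsNowhereDense (DS (Pstar q) ∩ Ioi (Real.log 2 / (2 * Real.log q))) := by
  refine nowhereDense_Ioi fun s₁ hs₁ => ?_
  obtain ⟨N, hN⟩ := exists_gap hq hs₁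
  exact (nowhereDense_above (δ := fun E : Set ℕ => dm ((fun m => q ^ m) '' E))
    (fun E E' h => dm_mono (image_mono h)) hN).mono (inter_subset_inter_left _ (DS_subset q))

end Pool.Agent.P.MP_41c62e_nt
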